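import Mathlib
import Pool.Agent.P.MP_a9963e_ag.Main

namespace Pool.Agent.Results.MP_a9963e_ag.PfisterNotLift

open Pool.Agent.P.MP_a9963e_ag

/-- Over every field of characteristic not two there is a smooth integral affine scheme with an
unramified class in `K₂` whose Pfister image is not the class of an unramified form in `I²`. -/
theorem result : ∀ (F : Type) [Field F], (2 : F) ≠ 0 →
    ∃ (A L : Type) (_ : CommRing A) (_ : IsDomain A) (_ : Algebra F A) (_ : Field L)
      (_ : Algebra A L) (_ : IsFractionRing A L), Algebra.Smooth F A ∧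
      ∃ (m : ℕ) (f g : Fin m → Lˣ),
        (∀ (P : Ideal A) [P.IsPrime] [IsDiscreteValuationRing (locAt A L P)],
          TameTrivial (locAt A L P) f g) ∧
        ¬ ∃ q ∈ fund L ^ 2,
          (∀ (P : Ideal A) [P.IsPrime] [IsDiscreteValuationRing (locAt A L P)],
            ResidueZero (locAt A L P) q) ∧
          q - ∑ i, pf (f i) * pf (g i) ∈ fund L ^ 3 := by
  intro F _ h2
  let L := FractionRing (S4 F)
  have hc := coord_X F
  let x : Fin 4 → Lˣ := fun i => Units.mk0 _ (hc.ne_zero_X i)
  have hx : Coord F ![(x 0 : L), x 1, x 2, x 3] := by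
    convert hc using 1
    ext i
    fin_cases i <;> rfl
  have := hx.frac_A
  refine ⟨Glue F (x 0 : L) (x 1) (x 2) (x 3), L, inferInstance, inferInstance, inferInstance,
    inferInstance, inferInstance, this, hx.smooth_A, 2, ![x 0, x 2], ![x 1, x 3],
    fun P _ _ => hx.tame P, ?_⟩
  rintro ⟨q, -, hq, h3⟩
  obtain ⟨v, hv, v1, hd⟩ := hx.obstruction h2
  obtain ⟨d, hd'⟩ := hv.exists_fun (two_ne_zero_of_hom (IsUnit.mk0 _ h2) (algebraMap F L))
    (fun w => w 0 * w 1)
  have h0 := hv.kill_cube 0 1 hd' h3
  rw [map_sub, hd d hd' q hq, zero_sub, neg_eq_zero] at h0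
  have va := v1 0
  have vs := v1 1
  have vb := v1 2
  have vc := v1 3
  simp only [Matrix.cons_val_zero, Matrix.cons_val_one, Matrix.cons_val] at va vs vb vc
  simp only [Fin.sum_univ_two, Matrix.cons_val_zero, Matrix.cons_val_one, pf, mul_add, add_mul,
    map_add, ← form_mul] at h0
  simp only [← wf_units, hd' _ (Units.ne_zero _)] at h0
  simp only [Units.val_mul, Units.val_neg, Units.val_one, mul_one, one_mul, neg_mul_neg, hv.neg,
    hv.one, hv.mul _ _ (Units.ne_zero _) (Units.ne_zero _), va, vs, vb, vc] at h0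
  revert h0
  decide

end Pool.Agent.Results.MP_a9963e_ag.PfisterNotLift
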